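import Pool.Agent.Helper581.Min.Crit

set_option autoImplicit false

namespace Pool.Agent.Results.MP_53c676_al.Criterion

open Pool.Agent.Helper581.Min

/-- Necessary and sufficient conditions for a just infinite branch group to be minimal: every
rigid vertex stabilizer is at least as large as the group; equivalently, below every vertex `v`
there is a nonempty set `F` of vertices of one level such that the group is abstractly
commensurable with the (direct) product of the rigid stabilizers of the vertices in `F`. -/
theorem result {G V : Type} [Group G] [MulAction G V] (T : SphericalTree V)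
    (hB : IsBranchAction T G) (hJ : JustInfinite G) :
    (IsMinimal G ↔ ∀ v : V, Larger (T.rist G v) G) ∧
    (IsMinimal G ↔ ∀ v : V, ∃ (m : ℕ) (F : Set V), F.Nonempty ∧
      (∀ u ∈ F, T.Below v u ∧ T.lev u = m) ∧
      Commensurable G (⨆ u : F, T.rist G u.1 : Subgroup G)) :=
  ⟨hB.minimal_iff hJ, hB.minimal_iff' hJ⟩

end Pool.Agent.Results.MP_53c676_al.Criterion
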