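import Pool.Agent.Helper581.Min.Reg

set_option autoImplicit false

namespace Pool.Agent.Results.MP_53c676_al.RegularBranch

open Pool.Agent.Helper581.Min

/-- Every just infinite regular branch group is minimal. -/
theorem result (k : ℕ) (G K : Subgroup (Equiv.Perm (Words k))) (hR : IsRegularBranch k G K)
    (hJ : JustInfinite G) : IsMinimal G :=
  hR.minimal hJ

end Pool.Agent.Results.MP_53c676_al.RegularBranch
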